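import Pool.Agent.H554R2.Lin.EvalCnf

/-!
# Evaluating CNF formulas of constant width in time `k n` requires linear space

For every `k` there are CNF formulas `F` with `O(n)` clauses of constant width such that
deterministic branching programs of length at most `k n` which evaluate `F` on a given assignment
have `2 ^ (n / D)` nodes: in time `k n`, space `n / D` is necessary.  In time `D n`, and also with a
constant number of queries if one may guess a violated clause, `O(n)` nodes suffice.

The formulas consist of random clauses.  The lower bound uses rectangles in the set of the
assignments accepted in time `k n`, which are obtained from random colourings of the blocks of the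
computations (see `Pool.Agent.H554R2.Lin.Main`), and the fact that the set of the satisfying
assignments, though dense, contains no rectangle of this density.

The lemmas were proved together with helper35, helper375, helper403, helper415, helper619
(programs of length `k n`), helper92 (composition of programs) and helper30, helper269 (random
clauses).
-/

set_option autoImplicit false

namespace Pool.Agent.Results.MP_768539_lc.CnfEvaluation

open Pool.Agent.H554R2.Sem Pool.Agent.H554R2.Coin Pool.Agent.H554R2.Cnf

/-- For every `k` there is a constant `D` such that for all `n ≥ D` there is a CNF formula `F` in
`n` variables, with at most `D n` clauses of at most `D` literals, for which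

* some nondeterministic program with at most `D n` nodes accepts exactly the points which violate
  `F`, with at most `D` queries in every accepting computation,
* some deterministic program with at most `D n` nodes computes, with at most `D n` queries, whether
  the input satisfies `F`,
* every deterministic program with fewer than `2 ^ (n / D)` nodes which outputs `true` only on
  points which satisfy `F`, outputs `true` after at most `k n` queries for less than a fraction
  `1 / 2 ^ (n / D)` of the points which satisfy `F`. -/
theorem result (k : ℕ) : ∃ D : ℕ, 0 < D ∧ ∀ n ≥ D,
    ∃ F : Finset (Finset (Fin n × Bool)), F.card ≤ D * n ∧ (∀ c ∈ F, c.card ≤ D) ∧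
      (∃ N : NBP (Fin n), Fintype.card N.State ≤ D * n ∧
        (∀ x, (∃ l, N.Accepting x l) ↔ ¬ Models F x) ∧
        ∀ x l, N.Accepting x l → (l.filterMap N.query).length ≤ D) ∧
      (∃ P : BP (Fin n) Bool, Fintype.card P.State ≤ D * n ∧
        ∀ x, ∃ (l : List (Fin n)) (b : Bool), l.length ≤ D * n ∧ P.Comp x l b ∧
          (b = true ↔ Models F x)) ∧
      ∀ P : BP (Fin n) Bool, Fintype.card P.State < 2 ^ (n / D) →
        (∀ x l, P.Comp x l true → Models F x) →
        2 ^ (n / D) * Nat.card {x // ∃ l, P.Comp x l true ∧ l.length ≤ k * n} <
          Nat.card {x : Pt n // Models F x} :=
  Pool.Agent.H554R2.Lin.final_cnf_full k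

end Pool.Agent.Results.MP_768539_lc.CnfEvaluation
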