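import Pool.Agent.H547U3.Cls

/-!
# The LBA problem over sets of Boolean functions

Linear space is represented by one-dimensional cellular automata with as many cells as the input
has bits, a constant number of bits per cell, and unlimited time (`DCA`, `NCA`: deterministic and
nondeterministic automata with `S n` cells and time `T n` whose local rule is computed by circuits
over `B`).
-/

set_option autoImplicit false

namespace Pool.Agent.Results.MP_768539_lc.GateSetTrichotomy

open Pool.Agent.H547R6 Pool.Agent.H547R7 Pool.Agent.H547R8 Pool.Agent.H547R9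
open Pool.Agent.H547U3

/-- deterministic linear space over `B` -/
def DLin (B : Set BFun) : Set (Set (List Bool)) := DCA B (fun n => n) (fun _ => ⊤)

/-- nondeterministic linear space over `B` -/
def NLin (B : Set BFun) : Set (Set (List Bool)) := NCA B (fun n => n) (fun _ => ⊤)

/-- **The LBA problem over gate sets.** -/
theorem result (B : Set BFun) :
    (B ⊆ Mon → NLin B = DLin B) ∧
    (B ⊆ Mon → ¬ B ⊆ Aff → ¬ B ⊆ Conj → ¬ B ⊆ Disj →
      NLin B = DLin Set.univ ∧ DLin B = DLin Set.univ) ∧
    (¬ B ⊆ Mon → ¬ B ⊆ Aff → NLin B = NLin Set.univ ∧ DLin B = DLin Set.univ) :=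
  ⟨fun hM => nd_mon B hM _ _, fun hM hA hC hD => ⟨(nd_mon B hM _ _).trans
    (det_all B hA hC hD _ _), det_all B hA hC hD _ _⟩, fun hM hA => ⟨nd_all B hM hA _ _,
    det_all B hA (fun h => hM (h.trans conj_mon)) (fun h => hM (h.trans disj_mon)) _ _⟩⟩

end Pool.Agent.Results.MP_768539_lc.GateSetTrichotomy
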