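import Pool.Agent.H554R2.Lin.Final

/-!
# Determinism versus nondeterminism in time `k n`

For every `k` there are functions which nondeterministic branching programs compute in one pass,
with a constant number of guessed bits and constant width, and deterministic programs in a constant
number `D` of passes and constant width, while deterministic programs of length at most `k n` need
`2 ^ (n / D)` nodes: in time `k n`, space `n / D` is necessary.

The function: the `n` variables are arranged in several (random) orders, and in each order they are
cut into groups of several sizes; the function is `true` iff for one of the orders and sizes the
parity of the number of pairs of ones in the same group is different from a prescribed bit.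

The lower bound: the computations of length `k n` are cut into `r` blocks of equal length, and the
blocks are coloured at random.  For a suitable scale, the variables which are read in exactly `c`
blocks, all of the colour `0` (or all of the colour `1`) dominate the other variables which are
read in blocks of one colour only; hence, after fixing the other variables, one obtains a
combinatorial rectangle of linear dimension whose density is exponentially larger than what is
possible for a set on which a form is constant, if the form connects the two sides of the
rectangle well.

Written together with helper35, helper92, helper375, helper403, helper415, helper439 and
helper619, who proved the lemmas.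
-/

set_option autoImplicit false

namespace Pool.Agent.Results.MP_768539_lc.LinearTimeNondeterminism

open Pool.Agent.H554R2.Sem Pool.Agent.H554R2.Coin

/-- For every `k` there is a constant `D` such that for all `n ≥ D` there is a Boolean function `f`
of `n` variables with the following properties.

* There are `m ≤ D` programs `U j` with `4 * (n + 1)` nodes, each of which queries the variables of
  a list `l j` without repetitions, in this order, on all inputs, such that `f x = true` iff one of
  them outputs `true` on `x`.  (So `f` is computed by a nondeterministic program which guesses `j`
  and then reads every variable once, in a fixed order.)
* There is a deterministic program with at most `D * (n + 1)` nodes which computes `f` and queries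
  every variable at most `D` times.
* Let `P` be a deterministic program with fewer than `2 ^ (n / D)` nodes which does not output
  `false` on any input `x` with `f x = true`.  Then it outputs `false` after at most `k * n`
  queries for less than a fraction `1 / 2 ^ (n / D)` of the inputs `x` with `f x = false`. -/
theorem result (k : ℕ) : ∃ D : ℕ, 0 < D ∧ ∀ n ≥ D, ∃ (f : Pt n → Bool) (m : ℕ)
    (U : Fin m → BP (Fin n) Bool) (l : Fin m → List (Fin n)),
    m ≤ D ∧ (∀ j, Fintype.card (U j).State = 4 * (n + 1) ∧ (l j).Nodup) ∧
    (∀ x, ∃ b : Fin m → Bool, (∀ j, (U j).Comp x (l j) (b j)) ∧
      (f x = true ↔ ∃ j, b j = true)) ∧
    (∃ P : BP (Fin n) Bool, Fintype.card P.State ≤ D * (n + 1) ∧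
      ∀ x, ∃ L : List (Fin n), (∀ i, L.count i ≤ D) ∧ P.Comp x L (f x)) ∧
    ∀ P : BP (Fin n) Bool, Fintype.card P.State < 2 ^ (n / D) →
      (∀ x, f x = true → ¬ ∃ l, P.Comp x l false) →
      2 ^ (n / D) * Nat.card {x // ∃ l, P.Comp x l false ∧ l.length ≤ k * n} <
        Nat.card {x // f x = false} :=
  Pool.Agent.H554R2.Lin.final k

end Pool.Agent.Results.MP_768539_lc.LinearTimeNondeterminism
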